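import Pool.Agent.Y218.HW

/-!
# Cartier operators on abelian covers of the line: duality and one moving branch point

Let `p` be a prime, `x_a` (`a` in a finite set `α` with `R` elements) distinct elements of a field or
domain of characteristic `p` and `e_a ≤ p - 1` exponents, `F_e = ∏ (X - x_a) ^ e_a`. The matrix
`hw p d F_e` is the matrix of the Cartier operator on the differentials `u dx / w`, `deg u < d`,
`w = ∏ (x - x_a) ^ (e_a / (p - 1))`.

* `dual`: if the matrix of `F_e` is singular then so is the matrix of the dual exponents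
  `p - 1 - e_a`.
* `pairing`: one moving point: `u(t) v(t) = 0` for `u`, `v` in the kernels of both matrices.
* `generic_det`: if one point moves then both matrices are nonsingular.
-/

set_option autoImplicit false

open Polynomial

namespace Pool.Agent.R992.AC

open Pool.Agent.Results.MP_2ca583_ag.HasseWittClassification
  (NoTop taylor_coeff_pred taylor_coeff_pred_of_noTop exists_antideriv coeff_taylor_antideriv
   derivative_taylor natCast_ne_zero_of_lt)
open Pool.Agent.Y218.HW

section basic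

variable {R : Type*} [CommRing R]

/-- `∏ (X - x a) ^ e a` -/
noncomputable def FF {α : Type*} [Fintype α] (x : α → R) (e : α → ℕ) : R[X] :=
  ∏ a, (X - C (x a)) ^ e a

/-- The entry with indices `i, j` (from `0`) is the coefficient of `x ^ (p (i + 1) - (j + 1))` in
`F`. -/
noncomputable def hw (p d : ℕ) (F : R[X]) : Matrix (Fin d) (Fin d) R :=
  Matrix.of fun i j => (X ^ ((j : ℕ) + 1) * F).coeff (p * ((i : ℕ) + 1))

lemma hw_entry (p d : ℕ) (hp : 1 ≤ p) (F : R[X]) (i j : Fin d) :
    hw p d F i j = (X ^ (j : ℕ) * F).coeff ((i : ℕ) * p + (p - 1)) := by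
  rw [hw, Matrix.of_apply]
  have h1 : p * ((i : ℕ) + 1) = ((i : ℕ) * p + (p - 1)) + 1 := by
    rw [mul_add, mul_one, mul_comm]; omega
  have h2 : (X ^ ((j : ℕ) + 1) * F : R[X]) = X * (X ^ (j : ℕ) * F) := by ring
  rw [h1, h2, coeff_X_mul]

lemma hw_mulVec (p d : ℕ) (hp : 1 ≤ p) (F : R[X]) (a : Fin d → R) (i : Fin d) :
    (hw p d F).mulVec a i
      = ((∑ j : Fin d, C (a j) * X ^ (j : ℕ)) * F).coeff ((i : ℕ) * p + (p - 1)) := by
  rw [Finset.sum_mul, finsetSum_coeff, Matrix.mulVec, dotProduct]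
  refine Finset.sum_congr rfl fun j _ => ?_
  rw [hw_entry p d hp, mul_assoc, coeff_C_mul, mul_comm]

lemma FF_map {S : Type*} [CommRing S] {α : Type*} [Fintype α] (φ : R →+* S) (x : α → R)
    (e : α → ℕ) : (FF x e).map φ = FF (fun a => φ (x a)) e := by
  unfold FF
  simp [Polynomial.map_prod]

lemma hw_map {S : Type*} [CommRing S] (φ : R →+* S) (p d : ℕ) (F : R[X]) :
    (hw p d F).map φ = hw p d (F.map φ) := by
  ext i j
  rw [Matrix.map_apply, hw, hw, Matrix.of_apply, Matrix.of_apply, ← map_X φ,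
    ← Polynomial.map_pow, ← Polynomial.map_mul, coeff_map]

lemma det_map {S : Type*} [CommRing S] (φ : R →+* S) (p d : ℕ) (F : R[X]) :
    φ (hw p d F).det = (hw p d (F.map φ)).det := by
  rw [RingHom.map_det, RingHom.mapMatrix_apply, hw_map]

lemma FF_natDegree [Nontrivial R] {α : Type*} [Fintype α] (x : α → R) (e : α → ℕ) :
    (FF x e).natDegree = ∑ a, e a := by
  unfold FF
  rw [natDegree_prod_of_monic _ _ (fun a _ => (monic_X_sub_C (x a)).pow (e a))]
  refine Finset.sum_congr rfl fun a _ => ?_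
  rw [(monic_X_sub_C (x a)).natDegree_pow, natDegree_X_sub_C, mul_one]

lemma FF_monic {α : Type*} [Fintype α] (x : α → R) (e : α → ℕ) : (FF x e).Monic :=
  monic_prod_of_monic _ _ (fun a _ => (monic_X_sub_C (x a)).pow (e a))

/-- the polynomial with the coefficients of index `i p + p - 1` -/
noncomputable def sel (p : ℕ) (W : R[X]) : R[X] :=
  ∑ i ∈ Finset.range (W.natDegree + 1), monomial i (W.coeff (i * p + (p - 1)))

lemma sel_coeff (p : ℕ) (hp : 1 ≤ p) (W : R[X]) (n : ℕ) :
    (sel p W).coeff n = W.coeff (n * p + (p - 1)) := by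
  unfold sel
  rw [finsetSum_coeff]
  simp only [coeff_monomial]
  by_cases hn : n < W.natDegree + 1
  · rw [Finset.sum_eq_single n]
    · rw [if_pos rfl]
    · intro b _ hb; rw [if_neg hb]
    · intro h; exact absurd (Finset.mem_range.2 hn) h
  · rw [Finset.sum_eq_zero]
    · rw [coeff_eq_zero_of_natDegree_lt]
      have : n ≤ n * p := Nat.le_mul_of_pos_right n hp
      omega
    · intro b hb
      rw [if_neg]
      have := Finset.mem_range.1 hb
      omega

end basic

section field

variable {K : Type*} [Field K] (p : ℕ) [Fact p.Prime] [CharP K p]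

lemma sel_eval (W : K[X]) (a : K) : (sel p W).eval (a ^ p) = (taylor a W).coeff (p - 1) := by
  rw [taylor_coeff_pred p W a, sel, eval_finsetSum]
  simp only [eval_monomial]

lemma loc (G P T : K[X]) (hG : derivative G = P) (a : K) (e : ℕ) (he : e < p)
    (hP : (X - C a) ^ e ∣ P) (hT : (X - C a) ^ (p - 1 - e) ∣ T) :
    (taylor a (G * T)).coeff (p - 1) = G.eval a * (taylor a T).coeff (p - 1) := by
  obtain ⟨T', hT'⟩ := hT
  rw [taylor_mul, coeff_mul, Finset.sum_eq_single (0, p - 1)]
  · simp only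
    rw [coeff_zero_eq_eval_zero]
    simp [taylor_eval]
  · rintro ⟨i, j⟩ hij hne
    rw [Finset.HasAntidiagonal.mem_antidiagonal] at hij
    simp only at hij ⊢
    have hi0 : i ≠ 0 := by
      rintro rfl
      apply hne
      congr 1
      omega
    by_cases hie : i ≤ e
    · rw [coeff_taylor_antideriv p G P hG a e he hP i (by omega) hie, zero_mul]
    · have hj : (taylor a T).coeff j = 0 := by
        rw [hT', taylor_mul, taylor_pow]
        have h3 : taylor a (X - C a) = X := by simp
        rw [h3, coeff_X_pow_mul', if_neg (by omega)]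
      rw [hj, mul_zero]
  · intro hnot
    exact absurd (Finset.HasAntidiagonal.mem_antidiagonal.2 (by simp)) hnot

lemma dvd_of_antideriv (G P : K[X]) (hG : derivative G = P) (a : K) (e : ℕ) (he : e < p)
    (hP : (X - C a) ^ e ∣ P) (h0 : G.eval a = 0) : (X - C a) ^ (e + 1) ∣ G := by
  rw [X_sub_C_pow_dvd_iff, X_pow_dvd_iff]
  intro i hi
  have h1 : G.comp (X + C a) = taylor a G := rfl
  rw [h1]
  by_cases hi0 : i = 0
  · subst hi0
    rw [coeff_zero_eq_eval_zero]
    simpa [taylor_eval] using h0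
  · exact coeff_taylor_antideriv p G P hG a e he hP i (by omega) (by omega)

variable {α : Type*} [Fintype α] [DecidableEq α]

lemma dvd_FF (x : α → K) (e : α → ℕ) (a : α) : (X - C (x a)) ^ e a ∣ FF x e :=
  Finset.dvd_prod_of_mem (fun a => (X - C (x a)) ^ e a) (Finset.mem_univ a)

lemma sum_dual (e : α → ℕ) (he : ∀ a, e a < p) :
    ∑ a, e a + ∑ a, (p - 1 - e a) = Fintype.card α * (p - 1) := by
  rw [← Finset.sum_add_distrib]
  have h1 : ∀ a ∈ (Finset.univ : Finset α), e a + (p - 1 - e a) = p - 1 := by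
    intro a _
    have := he a
    omega
  rw [Finset.sum_congr rfl h1, Finset.sum_const, Finset.card_univ, smul_eq_mul]

/-- the left vector -/
noncomputable def yv (x : α → K) (G : K[X]) (i : ℕ) : K :=
  ∑ a, G.eval (x a) * ((x a) ^ p) ^ i / ∏ c ∈ Finset.univ.erase a, ((x a) ^ p - (x c) ^ p)

omit [Fintype α] [DecidableEq α] in
lemma pow_inj (x : α → K) (hx : Function.Injective x) : Function.Injective fun a => (x a) ^ p := by
  intro a c hac
  exact hx (frobenius_inj K p (by simpa [frobenius_def] using hac))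

lemma dual_sum (x : α → K) (e : α → ℕ) (he : ∀ a, e a < p)
    (G P T : K[X]) (hG : derivative G = P) (hP : ∀ a, (X - C (x a)) ^ e a ∣ P)
    (hT : ∀ a, (X - C (x a)) ^ (p - 1 - e a) ∣ T) (d' : ℕ)
    (hTd : ∀ n, d' ≤ n → T.coeff (n * p + (p - 1)) = 0) :
    ∑ i ∈ Finset.range d', yv p x G i * T.coeff (i * p + (p - 1)) =
        ∑ a, (sel p (G * T)).eval ((x a) ^ p) /
          ∏ c ∈ Finset.univ.erase a, ((x a) ^ p - (x c) ^ p) := by
  have hp2 := (Fact.out : p.Prime).two_le
  have hlocT : ∀ a, (sel p (G * T)).eval ((x a) ^ p) =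
      G.eval (x a) * (taylor (x a) T).coeff (p - 1) := by
    intro a
    rw [sel_eval]
    exact loc p G P T hG (x a) (e a) (he a) (hP a) (hT a)
  have hTs : ∀ a, (taylor (x a) T).coeff (p - 1) =
      ∑ i ∈ Finset.range d', T.coeff (i * p + (p - 1)) * ((x a) ^ p) ^ i := by
    intro a
    rw [← sel_eval]
    rcases eq_or_ne (sel p T) 0 with h0 | h0
    · rw [h0, eval_zero]
      symm
      apply Finset.sum_eq_zero
      intro i _
      have h1 := congrArg (fun P => coeff P i) h0
      simp only [coeff_zero] at h1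
      rw [sel_coeff p (by omega)] at h1
      rw [h1, zero_mul]
    · rw [eval_eq_sum_range' (n := d')]
      · refine Finset.sum_congr rfl fun i _ => ?_
        rw [sel_coeff p (by omega)]
      · rw [natDegree_lt_iff_degree_lt h0, degree_lt_iff_coeff_zero]
        intro n hn
        rw [sel_coeff p (by omega)]
        exact hTd n hn
  simp_rw [hlocT, hTs]
  unfold yv
  simp_rw [Finset.sum_mul, Finset.mul_sum, Finset.sum_div]
  rw [Finset.sum_comm]
  refine Finset.sum_congr rfl fun a _ => Finset.sum_congr rfl fun i _ => ?_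
  ring

lemma mul_pred (p n : ℕ) (hp : 1 ≤ p) : n * (p - 1) + n = n * p := by
  obtain ⟨q, rfl⟩ : ∃ q, p = q + 1 := ⟨p - 1, by omega⟩
  simp only [Nat.add_sub_cancel]; ring

/-- `G` is an antiderivative; the left vector is in the left kernel of the dual matrix. -/
lemma dual_key (x : α → K) (hx : Function.Injective x) (e : α → ℕ) (he : ∀ a, e a < p) (d d' : ℕ)
    (hdd : d + d' < Fintype.card α) (hD' : ∑ a, (p - 1 - e a) ≤ (d' + 1) * (p - 1))
    (G P : K[X]) (hG : derivative G = P) (hP : ∀ a, (X - C (x a)) ^ e a ∣ P)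
    (hGd : G.natDegree ≤ d + ∑ a, e a) (j : ℕ) (hj : j < d') :
    ∑ i ∈ Finset.range d', yv p x G i *
      (X ^ j * FF x (fun a => p - 1 - e a)).coeff (i * p + (p - 1)) = 0 := by
  have hp : p.Prime := Fact.out
  have hp2 := hp.two_le
  obtain ⟨R, hR⟩ : ∃ R, R = Fintype.card α := ⟨_, rfl⟩
  have hsum := sum_dual p e he
  rw [← hR] at hsum hdd
  obtain ⟨D, hDdef⟩ : ∃ D, D = ∑ a, e a := ⟨_, rfl⟩
  obtain ⟨D', hD'def⟩ : ∃ D', D' = ∑ a, (p - 1 - e a) := ⟨_, rfl⟩
  rw [← hD'def] at hD' hsum
  rw [← hDdef] at hsum hGd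
  obtain ⟨T, hT⟩ : ∃ T : K[X], T = X ^ j * FF x (fun a => p - 1 - e a) := ⟨_, rfl⟩
  rw [← hT]
  have hTd : T.natDegree ≤ j + D' := by
    rw [hT]
    refine natDegree_mul_le.trans ?_
    rw [natDegree_X_pow, FF_natDegree, hD'def]
  have hGT : (G * T).natDegree ≤ d + D + (j + D') := natDegree_mul_le.trans (by omega)
  have hRp := mul_pred p R (by omega)
  have h1 : ∀ n, R - 1 ≤ n → (G * T).coeff (n * p + (p - 1)) = 0 := by
    intro n hn
    apply coeff_eq_zero_of_natDegree_lt
    have h2 : (R - 1) * p ≤ n * p := Nat.mul_le_mul_right p hn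
    have h3 : (R - 1) * p + p = R * p := by
      obtain ⟨r, rfl⟩ : ∃ r, R = r + 1 := ⟨R - 1, by omega⟩
      simp only [Nat.add_sub_cancel]; ring
    omega
  have hseldeg : (sel p (G * T)).degree < (Finset.univ : Finset α).card := by
    rw [Finset.card_univ, ← hR, degree_lt_iff_coeff_zero]
    intro n hn
    rw [sel_coeff p (by omega)]
    exact h1 n (by omega)
  have hbs : Set.InjOn (fun a => (x a) ^ p) ((Finset.univ : Finset α) : Set α) :=
    (pow_inj p x hx).injOn
  have h4 := Lagrange.coeff_eq_sum hbs hseldeg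
  rw [Finset.card_univ, ← hR, sel_coeff p (by omega), h1 _ le_rfl] at h4
  rw [dual_sum p x e he G P T hG hP ?_ d' ?_]
  · exact h4.symm
  · intro a
    rw [hT]
    exact (dvd_FF x (fun a => p - 1 - e a) a).mul_left _
  · intro n hn
    apply coeff_eq_zero_of_natDegree_lt
    have h5 : d' * p ≤ n * p := Nat.mul_le_mul_right p hn
    have h6 := mul_pred p (d' + 1) (by omega)
    have h7 : (d' + 1) * p = d' * p + p := by ring
    omega

/-- the left vector is not zero -/
lemma dual_ne (x : α → K) (hx : Function.Injective x) (e : α → ℕ) (he : ∀ a, e a < p) (d d' : ℕ)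
    (hdd : d + d' < Fintype.card α) (hD' : ∑ a, (p - 1 - e a) ≤ (d' + 1) * (p - 1))
    (G P : K[X]) (hG : derivative G = P) (hP : ∀ a, (X - C (x a)) ^ e a ∣ P)
    (hGd : G.natDegree ≤ d + ∑ a, e a) (hP0 : P ≠ 0) : ∃ i, i < d' ∧ yv p x G i ≠ 0 := by
  by_contra hcon
  push Not at hcon
  have hp : p.Prime := Fact.out
  have hp2 := hp.two_le
  obtain ⟨R, hR⟩ : ∃ R, R = Fintype.card α := ⟨_, rfl⟩
  have hsum := sum_dual p e he
  rw [← hR] at hsum hdd
  obtain ⟨D, hDdef⟩ : ∃ D, D = ∑ a, e a := ⟨_, rfl⟩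
  obtain ⟨D', hD'def⟩ : ∃ D', D' = ∑ a, (p - 1 - e a) := ⟨_, rfl⟩
  rw [← hD'def] at hD' hsum
  rw [← hDdef] at hsum hGd
  have hbs : Set.InjOn (fun a => (x a) ^ p) ((Finset.univ : Finset α) : Set α) :=
    (pow_inj p x hx).injOn
  obtain ⟨n, hn⟩ : ∃ n : K[X], n = Lagrange.interpolate Finset.univ (fun a => (x a) ^ p)
    (fun a => -G.eval (x a)) := ⟨_, rfl⟩
  have hneval : ∀ a, n.eval ((x a) ^ p) = -G.eval (x a) := fun a => by
    rw [hn]; exact Lagrange.eval_interpolate_at_node _ hbs (Finset.mem_univ a)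
  have hndeg : n.degree < R := by
    rw [hn, hR, ← Finset.card_univ]
    exact Lagrange.degree_interpolate_lt _ hbs
  have hcoef : ∀ m, m ≤ d' → ∀ j, R ≤ j + m → n.coeff j = 0 := by
    intro m
    induction m with
    | zero => intro _ j hj; exact (degree_lt_iff_coeff_zero _ _).1 hndeg j (by omega)
    | succ m ih =>
      intro hm j hj
      by_cases hj' : R ≤ j + m
      · exact ih (by omega) j hj'
      · have hdeg : (X ^ m * n : K[X]).degree <
            (((Finset.univ : Finset α).card : ℕ) : WithBot ℕ) := by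
          rw [Finset.card_univ, ← hR, degree_lt_iff_coeff_zero]
          intro s hs
          rw [coeff_X_pow_mul', if_pos (by omega)]
          exact ih (by omega) (s - m) (by omega)
        have h4 := Lagrange.coeff_eq_sum hbs hdeg
        rw [Finset.card_univ, ← hR, coeff_X_pow_mul', if_pos (by omega)] at h4
        have h5 : R - 1 - m = j := by omega
        rw [h5] at h4
        rw [h4]
        have h6 := hcon m (by omega)
        rw [← neg_eq_zero, ← Finset.sum_neg_distrib, ← h6]
        unfold yv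
        refine Finset.sum_congr rfl fun a _ => ?_
        rw [eval_mul, eval_pow, eval_X, hneval]
        ring
  obtain ⟨Gs, hGs⟩ : ∃ Gs : K[X], Gs = G + expand K p n := ⟨_, rfl⟩
  have hGsder : derivative Gs = P := by
    rw [hGs, derivative_add, hG, derivative_expand]
    simp
  have hGs0 : ∀ a, Gs.eval (x a) = 0 := by
    intro a
    rw [hGs, eval_add, expand_eval, hneval]
    ring
  have hdvd : FF x (fun a => e a + 1) ∣ Gs := by
    unfold FF
    apply Finset.prod_dvd_of_coprime
    · intro a _ c _ hac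
      exact IsCoprime.pow (pairwise_coprime_X_sub_C hx hac)
    · intro a _
      exact dvd_of_antideriv p Gs P hGsder (x a) (e a) (he a) (hP a) (hGs0 a)
  have hGs_zero : Gs = 0 := by
    apply eq_zero_of_dvd_of_natDegree_lt hdvd
    rw [FF_natDegree, Finset.sum_add_distrib, ← hDdef, Finset.sum_const, Finset.card_univ, ← hR,
      smul_eq_mul, mul_one, hGs]
    refine lt_of_le_of_lt (natDegree_add_le _ _) (max_lt (by omega) ?_)
    rw [natDegree_expand]
    have hnd : n.natDegree ≤ R - d' - 1 := by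
      rw [natDegree_le_iff_coeff_eq_zero]
      intro j hj
      exact hcoef d' le_rfl j (by omega)
    have h1 : n.natDegree * p ≤ (R - d' - 1) * p := Nat.mul_le_mul_right p hnd
    obtain ⟨s, hs⟩ : ∃ s, s = R - d' - 1 := ⟨_, rfl⟩
    rw [← hs] at h1
    have hRs : R = s + (d' + 1) := by omega
    have h2 := mul_pred p s (by omega)
    have h3 : R * (p - 1) = s * (p - 1) + (d' + 1) * (p - 1) := by rw [hRs]; ring
    omega
  rw [hGs_zero, derivative_zero] at hGsder
  exact hP0 hGsder.symm

/-- Duality. -/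
lemma dual (x : α → K) (hx : Function.Injective x) (e : α → ℕ) (he : ∀ a, e a < p) (d d' : ℕ)
    (hdd : d + d' < Fintype.card α) (hD' : ∑ a, (p - 1 - e a) ≤ (d' + 1) * (p - 1))
    (u : K[X]) (hu0 : u ≠ 0) (hu : u.degree < d) (h : NoTop p (u * FF x e)) :
    (hw p d' (FF x (fun a => p - 1 - e a))).det = 0 := by
  have hp2 := (Fact.out : p.Prime).two_le
  have hud : u.natDegree < d := (natDegree_lt_iff_degree_lt hu0).2 hu
  obtain ⟨G, hG, hGd⟩ := exists_antideriv p _ h
  have hGd' : G.natDegree ≤ d + ∑ a, e a := by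
    have := natDegree_mul_le (p := u) (q := FF x e)
    rw [FF_natDegree] at this
    omega
  have hP : ∀ a, (X - C (x a)) ^ e a ∣ u * FF x e := fun a => (dvd_FF x e a).mul_left _
  have hP0 : u * FF x e ≠ 0 := mul_ne_zero hu0 (FF_monic x e).ne_zero
  obtain ⟨i0, hi0, hyi0⟩ := dual_ne p x hx e he d d' hdd hD' G _ hG hP hGd' hP0
  rw [← Matrix.exists_vecMul_eq_zero_iff]
  refine ⟨fun i => yv p x G i, ?_, ?_⟩
  · intro h0
    exact hyi0 (congrFun h0 ⟨i0, hi0⟩)
  · funext j
    rw [Matrix.vecMul, dotProduct, Pi.zero_apply]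
    have h1 := dual_key p x hx e he d d' hdd hD' G _ hG hP hGd' j j.2
    obtain ⟨T, hT⟩ : ∃ T : K[X], T = X ^ (j : ℕ) * FF x (fun a => p - 1 - e a) := ⟨_, rfl⟩
    rw [← hT] at h1
    rw [← Fin.sum_univ_eq_sum_range (fun i => yv p x G i * T.coeff (i * p + (p - 1)))] at h1
    rw [← h1]
    refine Finset.sum_congr rfl fun i _ => ?_
    rw [hw_entry p d' (by omega), hT]

end field

end Pool.Agent.R992.AC
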