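import Pool.Agent.R992.AC.Move
import Pool.Agent.Y162.HW.Spread

/-!
# Reduction modulo `p` of characters of the projective line with moving branch points
-/

set_option autoImplicit false

open Polynomial

namespace Pool.Agent.R992.AC

open Pool.Agent.Y162.HW

section num

lemma numeric {α : Type*} [Fintype α] (ex : α → ℕ) (n q : ℕ) (hex : ∀ a, ex a < n)
    (o : α) (ho : ex o ≠ 0) :
    (∑ a, ex a - 1) / n + (∑ a, (n - ex a) - 1) / n < Fintype.card α ∧
    (∑ a, ex a) * q ≤ ((∑ a, ex a - 1) / n + 1) * (n * q) ∧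
    (∑ a, (n - ex a)) * q ≤ ((∑ a, (n - ex a) - 1) / n + 1) * (n * q) := by
  have hn : 0 < n := lt_of_le_of_lt (Nat.zero_le _) (hex o)
  obtain ⟨s, hs⟩ : ∃ s, s = ∑ a, ex a := ⟨_, rfl⟩
  obtain ⟨s', hs'⟩ : ∃ s', s' = ∑ a, (n - ex a) := ⟨_, rfl⟩
  have hsum : s + s' = Fintype.card α * n := by
    rw [hs, hs', ← Finset.sum_add_distrib]
    have h1 : ∀ a ∈ (Finset.univ : Finset α), ex a + (n - ex a) = n := by
      intro a _
      have := hex a
      omega
    rw [Finset.sum_congr rfl h1, Finset.sum_const, Finset.card_univ, smul_eq_mul]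
  have hs1 : 1 ≤ s := by
    rw [hs]
    have := Finset.single_le_sum (f := ex) (fun a _ => Nat.zero_le _) (Finset.mem_univ o)
    omega
  have hs1' : 1 ≤ s' := by
    rw [hs']
    have := Finset.single_le_sum (f := fun a => n - ex a) (fun a _ => Nat.zero_le _)
      (Finset.mem_univ o)
    have h2 := hex o
    omega
  rw [← hs, ← hs']
  have hdiv : ∀ m, 1 ≤ m → m ≤ ((m - 1) / n + 1) * n := by
    intro m hm
    have := Nat.lt_div_mul_add (a := m - 1) hn
    have h2 : ((m - 1) / n + 1) * n = (m - 1) / n * n + n := by ring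
    omega
  refine ⟨?_, ?_, ?_⟩
  · have h1 := Nat.div_mul_le_self (s - 1) n
    have h2 := Nat.div_mul_le_self (s' - 1) n
    have h3 : ((s - 1) / n + (s' - 1) / n) * n < Fintype.card α * n := by
      rw [add_mul]; omega
    exact Nat.lt_of_mul_lt_mul_right h3
  · rw [← mul_assoc]
    exact Nat.mul_le_mul_right q (hdiv s hs1)
  · rw [← mul_assoc]
    exact Nat.mul_le_mul_right q (hdiv s' hs1')

end num

section fam

variable {σ : Type*} {r : ℕ}

/-- the moving points (variables) and the fixed points -/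
noncomputable def pts {R : Type*} [CommRing R] (l : Fin r → R) : σ ⊕ Fin r → MvPolynomial σ R :=
  Sum.elim MvPolynomial.X (fun j => MvPolynomial.C (l j))

lemma FF_pow {R α : Type*} [CommRing R] [Fintype α] (x : α → R) (e : α → ℕ) (q : ℕ) :
    (FF x e) ^ q = FF x (fun a => e a * q) := by
  unfold FF
  rw [← Finset.prod_pow]
  refine Finset.prod_congr rfl fun a _ => ?_
  rw [← pow_mul]

lemma pts_inj {R : Type*} [CommRing R] [Nontrivial R] (l : Fin r → R)
    (hl : Function.Injective l) : Function.Injective (pts (σ := σ) l) := by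
  have hXC : ∀ (s : σ) (c : R), (MvPolynomial.X s : MvPolynomial σ R) ≠ MvPolynomial.C c := by
    classical
    intro s c h
    have h1 := congrArg (MvPolynomial.pderiv s) h
    rw [MvPolynomial.pderiv_X_self, MvPolynomial.pderiv_C] at h1
    exact one_ne_zero h1
  rintro (s | j) (s' | j') h
  · exact congrArg _ (MvPolynomial.X_injective h)
  · exact absurd h (hXC s _)
  · exact absurd h.symm (hXC s' _)
  · exact congrArg _ (hl (MvPolynomial.C_injective σ R h))

lemma fam_map {R S : Type*} [CommRing R] [CommRing S] [Fintype σ] (l : Fin r → R)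
    (ex : σ ⊕ Fin r → ℕ) (φ : R →+* S) :
    (FF (pts l) ex).map (MvPolynomial.map φ) = FF (pts (fun i => φ (l i))) ex := by
  rw [FF_map]
  congr 1
  funext a
  rcases a with s | j
  · simp [pts]
  · simp [pts]

lemma fam_eval {R S : Type*} [CommRing R] [CommRing S] [Fintype σ] (l : Fin r → R)
    (ex : σ ⊕ Fin r → ℕ) (φ : R →+* S) (t : σ → S) :
    (FF (pts l) ex).map (MvPolynomial.eval₂Hom φ t) =
      (∏ s, (X - C (t s)) ^ ex (Sum.inl s)) * ∏ j, (X - C (φ (l j))) ^ ex (Sum.inr j) := by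
  rw [FF_map]
  unfold FF
  rw [Fintype.prod_sum_type]
  simp [pts]

/-- the generic member is ordinary (one character) -/
lemma generic {K : Type*} [Field K] [Fintype σ] (p : ℕ) [Fact p.Prime] [CharP K p]
    (n q : ℕ) (hpq : p - 1 = n * q) (l : Fin r → K) (hl : Function.Injective l)
    (ex : σ ⊕ Fin r → ℕ) (hex : ∀ a, ex a < n) (s0 : σ) (hs0 : ex (Sum.inl s0) ≠ 0)
    (hq : Fintype.card σ + r ≤ q) :
    (hw p ((∑ a, ex a - 1) / n) ((FF (pts l) ex) ^ q)).det ≠ 0 := by
  classical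
  obtain ⟨h1, h2, h3⟩ := numeric ex n q hex (Sum.inl s0) hs0
  have h4 : (∑ a, ex a - 1) / n < Fintype.card (σ ⊕ Fin r) :=
    lt_of_le_of_lt (Nat.le_add_right _ _) h1
  have h5 : (∑ a, (n - ex a) - 1) / n < Fintype.card (σ ⊕ Fin r) :=
    lt_of_le_of_lt (Nat.le_add_left _ _) h1
  have hp2 := (Fact.out : p.Prime).two_le
  have hcard : Fintype.card (σ ⊕ Fin r) = Fintype.card σ + r := by simp
  have hq1 : 1 ≤ q := by
    have : 0 < Fintype.card σ := Fintype.card_pos_iff.2 ⟨s0⟩
    omega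
  have hb : ∀ a, ex a * q + q ≤ p - 1 := by
    intro a
    rw [hpq]
    calc ex a * q + q = (ex a + 1) * q := by ring
      _ ≤ n * q := Nat.mul_le_mul_right q (hex a)
  have hsub : ∀ a, p - 1 - ex a * q = (n - ex a) * q := by
    intro a
    rw [hpq, Nat.sub_mul]
  have ho : q ≤ ex (Sum.inl s0) * q := Nat.le_mul_of_pos_left q (Nat.pos_of_ne_zero hs0)
  rw [FF_pow]
  have : CharP (MvPolynomial σ K) p := inferInstance
  refine generic_det p ((MvPolynomial.pderiv s0).restrictScalars ℤ) (pts l) (pts_inj l hl)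
    (Sum.inl s0) (fun a => ex a * q) ?_ ?_ ?_ ?_ ?_ _ ((∑ a, (n - ex a) - 1) / n) ?_ ?_ ?_ ?_ ?_
  · rintro (s | j) hne
    · change MvPolynomial.pderiv s0 (MvPolynomial.X s) = 0
      exact MvPolynomial.pderiv_X_of_ne (fun h => hne (by rw [h]))
    · change MvPolynomial.pderiv s0 (MvPolynomial.C (l j)) = 0
      exact MvPolynomial.pderiv_C
  · change MvPolynomial.pderiv s0 (MvPolynomial.X s0) = 1
    exact MvPolynomial.pderiv_X_self s0
  · intro a
    have := hb a
    omega
  · omega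
  · have := hb (Sum.inl s0)
    omega
  · exact h1
  · rw [← Finset.sum_mul, hpq]
    exact h2
  · simp_rw [hsub]
    rw [← Finset.sum_mul, hpq]
    exact h3
  · have := hb (Sum.inl s0)
    omega
  · omega

end fam

section spread

variable {σ ι : Type*} [Fintype σ] [Fintype ι]

/-- the case of a homomorphism to a field of characteristic `p` -/
lemma exists_prime_aux {R K : Type*} [CommRing R] [Field K] (ψ : R →+* K)
    (p : ℕ) [Fact p.Prime] [CharP K p] (n r : ι → ℕ) (hn : ∀ i, n i ∣ p - 1)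
    (l : ∀ i, Fin (r i) → R) (hl : ∀ i, Function.Injective fun j => ψ (l i j))
    (ex : ∀ i, σ ⊕ Fin (r i) → ℕ) (hex : ∀ i a, ex i a < n i)
    (hs : ∀ i, ∃ s, ex i (Sum.inl s) ≠ 0)
    (hq : ∀ i, (Fintype.card σ + r i) * n i ≤ p - 1) :
    ∃ P : Ideal (MvPolynomial σ R), P.IsPrime ∧ (p : MvPolynomial σ R) ∈ P ∧
      ∀ i, (hw p ((∑ a, ex i a - 1) / n i) ((FF (pts (l i)) (ex i)) ^ ((p - 1) / n i))).det ∉ P := by
  refine ⟨RingHom.ker (MvPolynomial.map ψ), RingHom.ker_isPrime _, ?_, fun i => ?_⟩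
  · rw [RingHom.mem_ker, map_natCast]
    have h1 : ((p : ℕ) : MvPolynomial σ K) = MvPolynomial.C ((p : ℕ) : K) := by simp
    rw [h1, CharP.cast_eq_zero, MvPolynomial.C_0]
  · obtain ⟨s0, hs0⟩ := hs i
    have hn0 : 0 < n i := lt_of_le_of_lt (Nat.zero_le _) (hex i (Sum.inl s0))
    have h1 := generic (K := K) p (n i) ((p - 1) / n i) (Nat.mul_div_cancel' (hn i)).symm
      (fun j => ψ (l i j)) (hl i) (ex i) (hex i) s0 hs0
      ((Nat.le_div_iff_mul_le hn0).2 (hq i))
    rw [RingHom.mem_ker, det_map, Polynomial.map_pow, fam_map]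
    exact h1

/-- For a finitely generated domain of characteristic zero and all large `p ≡ 1` there is a prime of
`R[T]` over `p` which does not contain the determinants. -/
lemma exists_prime {R : Type*} [CommRing R] [IsDomain R] [CharZero R]
    [Algebra.FiniteType ℤ R] (n r : ι → ℕ)
    (l : ∀ i, Fin (r i) → R) (hl : ∀ i, Function.Injective (l i))
    (ex : ∀ i, σ ⊕ Fin (r i) → ℕ) (hex : ∀ i a, ex i a < n i)
    (hs : ∀ i, ∃ s, ex i (Sum.inl s) ≠ 0) :
    ∃ N : ℕ, ∀ p : ℕ, N ≤ p → p.Prime → (∀ i, n i ∣ p - 1) →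
      ∃ P : Ideal (MvPolynomial σ R), P.IsPrime ∧ (p : MvPolynomial σ R) ∈ P ∧
      ∀ i, (hw p ((∑ a, ex i a - 1) / n i) ((FF (pts (l i)) (ex i)) ^ ((p - 1) / n i))).det ∉ P := by
  classical
  have hNoeth : IsNoetherianRing R := Algebra.FiniteType.isNoetherianRing ℤ R
  obtain ⟨N1, hN1⟩ := exists_prime_over (R := R)
  set δ : R := ∏ i, ∏ x ∈ (Finset.univ : Finset (Fin (r i))).offDiag,
    (l i x.1 - l i x.2) with hδ
  have hδ0 : δ ≠ 0 := by
    rw [hδ, Finset.prod_ne_zero_iff]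
    intro i _
    rw [Finset.prod_ne_zero_iff]
    intro x hx
    rw [Finset.mem_offDiag] at hx
    exact sub_ne_zero.2 fun h => hx.2.2 (hl i h)
  obtain ⟨N2, hN2⟩ := large_primes δ hδ0
  refine ⟨max N1 (max N2 ((∑ i, (Fintype.card σ + r i) * n i) + 3)), fun p hp hpp hpn => ?_⟩
  have hpf : Fact p.Prime := ⟨hpp⟩
  obtain ⟨Q, hQ, hpQ⟩ := hN1 p ((le_max_left _ _).trans hp) hpp
  obtain ⟨P, hP, hPQ⟩ := Ideal.exists_minimalPrimes_le
    (show Ideal.span {(p : R)} ≤ Q by rw [Ideal.span_le]; simpa using hpQ)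
  have hPp : P.IsPrime := hP.1.1
  have hδP := hN2 p ((le_max_left _ _).trans ((le_max_right _ _).trans hp)) hpp P hP
  have hpP : (p : R) ∈ P := hP.1.2 (Ideal.subset_span rfl)
  obtain ⟨ψ, hψdef⟩ : ∃ ψ : R →+* FractionRing (R ⧸ P),
      ψ = (algebraMap (R ⧸ P) (FractionRing (R ⧸ P))).comp (Ideal.Quotient.mk P) := ⟨_, rfl⟩
  have hψinj : Function.Injective (algebraMap (R ⧸ P) (FractionRing (R ⧸ P))) :=
    IsFractionRing.injective _ _
  have hψ : ∀ x, ψ x = 0 ↔ x ∈ P := by
    intro x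
    rw [hψdef, RingHom.comp_apply, map_eq_zero_iff _ hψinj, Ideal.Quotient.eq_zero_iff_mem]
  have hK0 : ((p : ℕ) : FractionRing (R ⧸ P)) = 0 := by
    have := (hψ (p : R)).2 hpP
    rwa [map_natCast] at this
  have hchar : CharP (FractionRing (R ⧸ P)) p := by
    obtain ⟨q, hq⟩ := CharP.exists (FractionRing (R ⧸ P))
    have h1 : q ∣ p := (CharP.cast_eq_zero_iff (FractionRing (R ⧸ P)) q p).1 hK0
    rcases (Nat.dvd_prime hpp).1 h1 with h2 | h2
    · subst h2
      exact absurd (CharP.char_ne_one (FractionRing (R ⧸ P)) 1 rfl) (by simp)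
    · rwa [← h2]
  have hlinj : ∀ ii, Function.Injective fun i => ψ (l ii i) := by
    intro ii i j hij
    by_contra hne
    apply hδP
    have h1 : ψ (l ii i - l ii j) = 0 := by rw [map_sub]; exact sub_eq_zero.2 hij
    have h2 := (hψ _).1 h1
    have h3 : (∏ x ∈ (Finset.univ : Finset (Fin (r ii))).offDiag, (l ii x.1 - l ii x.2)) ∈ P :=
      P.mem_of_dvd (Finset.dvd_prod_of_mem
        (fun x : Fin (r ii) × Fin (r ii) => l ii x.1 - l ii x.2)
        (show (i, j) ∈ (Finset.univ : Finset (Fin (r ii))).offDiag by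
          rw [Finset.mem_offDiag]; exact ⟨Finset.mem_univ _, Finset.mem_univ _, hne⟩)) h2
    exact P.mem_of_dvd (Finset.dvd_prod_of_mem
      (fun i => ∏ x ∈ (Finset.univ : Finset (Fin (r i))).offDiag, (l i x.1 - l i x.2))
      (Finset.mem_univ ii)) h3
  have hp3 : (∑ i, (Fintype.card σ + r i) * n i) + 3 ≤ p :=
    (le_max_right _ _).trans ((le_max_right _ _).trans hp)
  refine exists_prime_aux ψ p n r hpn l hlinj ex hex hs fun i => ?_
  have hgi : (Fintype.card σ + r i) * n i ≤ ∑ i, (Fintype.card σ + r i) * n i :=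
    Finset.single_le_sum (f := fun i => (Fintype.card σ + r i) * n i)
      (fun _ _ => Nat.zero_le _) (Finset.mem_univ i)
  omega

theorem main {k : Type*} [Field k] [CharZero k] (n r : ι → ℕ)
    (l : ∀ i, Fin (r i) → k) (hl : ∀ i, Function.Injective (l i))
    (ex : ∀ i, σ ⊕ Fin (r i) → ℕ) (hex : ∀ i a, ex i a < n i)
    (hs : ∀ i, ∃ s, ex i (Sum.inl s) ≠ 0)
    (t : σ → k) (T : Set k) (hT : (⋃ i, Set.range (l i)) ⊆ T)
    (ht : AlgebraicIndependent (IntermediateField.adjoin ℚ T) t)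
    (A : Subalgebra ℤ k) (hA : A.FG) (F : ι → A[X])
    (hF : ∀ i, (F i).map (algebraMap A k) =
      (∏ s, (X - C (t s)) ^ ex i (Sum.inl s)) * ∏ j, (X - C (l i j)) ^ ex i (Sum.inr j))
    (c : A) (hc : c ≠ 0) :
    ∃ N : ℕ, ∀ p : ℕ, N ≤ p → p.Prime → (∀ i, n i ∣ p - 1) →
      ∃ M : Ideal A, M.IsMaximal ∧ (p : A) ∈ M ∧ c ∉ M ∧
        ∀ i, (hw p ((∑ a, ex i a - 1) / n i)
          (((F i).map (Ideal.Quotient.mk M)) ^ ((p - 1) / n i))).det ≠ 0 := by
  classical
  -- the rings
  set S : Set k := ⋃ i, Set.range (l i) with hS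
  have hSfin : S.Finite := Set.finite_iUnion fun i => Set.finite_range (l i)
  let A0 : Subalgebra ℤ k := Algebra.adjoin ℤ S
  have hA0 : A0.FG := Subalgebra.fg_def.2 ⟨S, hSfin, rfl⟩
  let B : Subalgebra ℤ k := A ⊔ (A0 ⊔ Algebra.adjoin ℤ (Set.range t))
  have hB : B.FG :=
    hA.sup (hA0.sup (Subalgebra.fg_def.2 ⟨Set.range t, Set.finite_range t, rfl⟩))
  have hAB : A ≤ B := le_sup_left
  have hA0B : A0 ≤ B := le_sup_left.trans le_sup_right
  have htB : ∀ i, t i ∈ B := fun i =>
    (le_sup_right.trans le_sup_right : Algebra.adjoin ℤ (Set.range t) ≤ B)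
      (Algebra.subset_adjoin ⟨i, rfl⟩)
  have hlA0 : ∀ i j, l i j ∈ A0 := fun i j =>
    Algebra.subset_adjoin (Set.mem_iUnion.2 ⟨i, j, rfl⟩)
  let l0 : ∀ i, Fin (r i) → A0 := fun i j => ⟨l i j, hlA0 i j⟩
  have hl0 : ∀ i, Function.Injective (l0 i) := fun i j j' h => hl i (congrArg Subtype.val h)
  have hfA0 : Algebra.FiniteType ℤ A0 := (Subalgebra.fg_iff_finiteType _).mp hA0
  have hfB : Algebra.FiniteType ℤ B := (Subalgebra.fg_iff_finiteType _).mp hB
  have hfA : Algebra.FiniteType ℤ A := (Subalgebra.fg_iff_finiteType _).mp hA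
  -- the map `A0[T] → B`
  let i0 : A0 →+* B := (Subalgebra.inclusion hA0B).toRingHom
  let f : MvPolynomial σ A0 →+* B := MvPolynomial.eval₂Hom i0 (fun i => ⟨t i, htB i⟩)
  have hfk : ∀ P : MvPolynomial σ A0, ((f P : B) : k) = MvPolynomial.aeval t P := by
    intro P
    change (algebraMap B k) (MvPolynomial.eval₂Hom i0 (fun i => ⟨t i, htB i⟩) P) = _
    rw [MvPolynomial.map_eval₂Hom]
    rfl
  have htr : Function.Injective (MvPolynomial.aeval t : MvPolynomial σ A0 →ₐ[A0] k) := by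
    have hle : ∀ x : A0, (x : k) ∈ IntermediateField.adjoin ℚ T := by
      intro x
      have h1 : A0 ≤ (IntermediateField.adjoin ℚ T).toSubalgebra.restrictScalars ℤ :=
        Algebra.adjoin_le (hT.trans (IntermediateField.subset_adjoin ℚ _))
      exact h1 x.2
    let j : A0 →+* IntermediateField.adjoin ℚ T :=
      (algebraMap A0 k).codRestrict _ (fun x => hle x)
    have hj : Function.Injective j := by
      intro x y h
      have := congrArg Subtype.val h
      exact Subtype.ext this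
    have h2 : ∀ P : MvPolynomial σ A0,
        MvPolynomial.aeval t P = MvPolynomial.aeval t (MvPolynomial.map j P) := by
      intro P
      rw [MvPolynomial.aeval_def, MvPolynomial.aeval_def, MvPolynomial.eval₂_map]
      rfl
    intro P Q hPQ
    rw [h2, h2] at hPQ
    exact MvPolynomial.map_injective j hj (ht hPQ)
  have hf : Function.Injective f := by
    intro P Q h
    have h1 := congrArg Subtype.val h
    rw [hfk, hfk] at h1
    exact htr h1
  have hft : f.FiniteType := by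
    have h1 : (f.comp (algebraMap ℤ (MvPolynomial σ A0))).FiniteType := by
      have : (algebraMap ℤ B).FiniteType := RingHom.finiteType_algebraMap.mpr inferInstance
      rwa [show algebraMap ℤ B = f.comp (algebraMap ℤ (MvPolynomial σ A0)) from
        RingHom.ext_int _ _] at this
    exact RingHom.FiniteType.of_comp_finiteType h1
  have hJ : IsJacobsonRing A := by
    have := jac_int
    exact isJacobsonRing_of_finiteType (A := ℤ)
  have hNoeth : IsNoetherianRing A0 := Algebra.FiniteType.isNoetherianRing ℤ A0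
  let iA : A →+* B := (Subalgebra.inclusion hAB).toRingHom
  have hiA : Function.Injective iA := Subalgebra.inclusion_injective hAB
  have hc' : iA c ≠ 0 := by rwa [map_ne_zero_iff _ hiA]
  obtain ⟨c0, hc0, hlift⟩ := chev f hf hft (iA c) hc'
  obtain ⟨N1, hN1⟩ := large_primes c0 hc0
  obtain ⟨N2, hN2⟩ := exists_prime n r l0 hl0 ex hex hs
  have hFB : ∀ i, (F i).map iA = (FF (pts (l0 i)) (ex i)).map f := by
    intro i
    apply map_injective (algebraMap B k) Subtype.val_injective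
    rw [Polynomial.map_map, Polynomial.map_map]
    have e1 : (algebraMap B k).comp iA = algebraMap A k := rfl
    have e2 : (algebraMap B k).comp f = MvPolynomial.eval₂Hom (algebraMap A0 k) t := by
      refine RingHom.ext fun P => ?_
      exact hfk P
    rw [e1, e2, hF, fam_eval]
    rfl
  refine ⟨max N1 N2, fun p hp hpp hpn => ?_⟩
  obtain ⟨P', hP', hpP', hdP'⟩ := hN2 p ((le_max_right _ _).trans hp) hpp hpn
  obtain ⟨P, hP, hPP'⟩ := Ideal.exists_minimalPrimes_le
    (show Ideal.span {(p : MvPolynomial σ A0)} ≤ P' by rw [Ideal.span_le]; simpa using hpP')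
  have hPp : P.IsPrime := hP.1.1
  have hc0P := hN1 p ((le_max_left _ _).trans hp) hpp P hP
  have hdP : ∀ i, (hw p ((∑ a, ex i a - 1) / n i)
      ((FF (pts (l0 i)) (ex i)) ^ ((p - 1) / n i))).det ∉ P := fun i h => hdP' i (hPP' h)
  obtain ⟨Q, hQ, hQP, hcQ⟩ := hlift P hPp hc0P
  let M0 : Ideal A := Q.comap iA
  have hM0 : M0.IsPrime := Ideal.comap_isPrime iA Q
  have hpM0 : (p : A) ∈ M0 := by
    change iA (p : A) ∈ Q
    have h1 : (p : MvPolynomial σ A0) ∈ Q.comap f := by
      rw [hQP]; exact hP.1.2 (Ideal.subset_span rfl)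
    rw [Ideal.mem_comap, map_natCast] at h1
    rwa [map_natCast]
  have hdM0 : ∀ i, (hw p ((∑ a, ex i a - 1) / n i) ((F i) ^ ((p - 1) / n i))).det ∉ M0 := by
    intro i h
    apply hdP i
    rw [← hQP, Ideal.mem_comap, det_map, Polynomial.map_pow, ← hFB, ← Polynomial.map_pow,
      ← det_map]
    exact h
  have hcM0 : c ∉ M0 := hcQ
  have hprod : c * ∏ i, (hw p ((∑ a, ex i a - 1) / n i) ((F i) ^ ((p - 1) / n i))).det ∉ M0 := by
    intro hm
    rcases hM0.mem_or_mem hm with h1 | h1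
    · exact hcM0 h1
    · obtain ⟨i, -, hi⟩ := (hM0.prod_mem_iff).1 h1
      exact hdM0 i hi
  have hjac : M0.jacobson = M0 := isJacobsonRing_iff_prime_eq.mp hJ M0 hM0
  rw [← hjac, Ideal.jacobson, Submodule.mem_sInf] at hprod
  push Not at hprod
  obtain ⟨M, ⟨hM0M, hM⟩, hMa⟩ := hprod
  refine ⟨M, hM, hM0M hpM0, fun h1 => hMa (Ideal.mul_mem_right _ M h1), fun i => ?_⟩
  rw [← Polynomial.map_pow, ← det_map]
  intro h1
  refine hMa (Ideal.mul_mem_left M _ ?_)
  exact Ideal.mem_of_dvd M (Finset.dvd_prod_of_mem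
    (fun i => (hw p ((∑ a, ex i a - 1) / n i) ((F i) ^ ((p - 1) / n i))).det)
    (Finset.mem_univ i))
    (Ideal.Quotient.eq_zero_iff_mem.1 h1)

end spread

end Pool.Agent.R992.AC
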