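import Pool.Agent.R992.AC.Core

/-!
# One moving branch point
-/

set_option autoImplicit false

open Polynomial

namespace Pool.Agent.R992.AC

open Pool.Agent.Results.MP_2ca583_ag.HasseWittClassification
  (NoTop taylor_coeff_pred taylor_coeff_pred_of_noTop exists_antideriv coeff_taylor_antideriv
   derivative_taylor natCast_ne_zero_of_lt)
open Pool.Agent.Y218.HW

section basic2

variable {R : Type*} [CommRing R] {α : Type*} [Fintype α] [DecidableEq α]

/-- the factors of the other points -/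
noncomputable def HH (x : α → R) (e : α → ℕ) (o : α) : R[X] :=
  ∏ a ∈ Finset.univ.erase o, (X - C (x a)) ^ e a

lemma FF_eq (x : α → R) (e : α → ℕ) (o : α) : FF x e = (X - C (x o)) ^ e o * HH x e o := by
  exact (Finset.mul_prod_erase Finset.univ (fun a => (X - C (x a)) ^ e a) (Finset.mem_univ o)).symm

lemma HH_monic (x : α → R) (e : α → ℕ) (o : α) : (HH x e o).Monic :=
  monic_prod_of_monic _ _ (fun a _ => (monic_X_sub_C (x a)).pow (e a))

lemma HH_natDegree [Nontrivial R] (x : α → R) (e : α → ℕ) (o : α) :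
    (HH x e o).natDegree = ∑ a ∈ Finset.univ.erase o, e a := by
  unfold HH
  rw [natDegree_prod_of_monic _ _ (fun a _ => (monic_X_sub_C (x a)).pow (e a))]
  refine Finset.sum_congr rfl fun a _ => ?_
  rw [(monic_X_sub_C (x a)).natDegree_pow, natDegree_X_sub_C, mul_one]

lemma HH_map {S : Type*} [CommRing S] (φ : R →+* S) (x : α → R) (e : α → ℕ) (o : α) :
    (HH x e o).map φ = HH (fun a => φ (x a)) e o := by
  unfold HH
  simp [Polynomial.map_prod]

end basic2

section field

variable {K : Type*} [Field K] (p : ℕ) [Fact p.Prime] [CharP K p]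
  {α : Type*} [Fintype α] [DecidableEq α]

lemma pairing (x : α → K) (hx : Function.Injective x) (o : α) (e : α → ℕ) (he : ∀ a, e a < p)
    (he1 : e o + 1 < p) (d d' : ℕ) (hdd : d + d' < Fintype.card α)
    (u v v1 : K[X]) (hu : u.degree < d) (hv : v.degree < d') (hv1 : v1.degree < d')
    (h1 : NoTop p (u * FF x e))
    (h2 : NoTop p ((X - C (x o)) ^ (p - 1 - e o - 1) * HH x (fun a => p - 1 - e a) o *
      ((X - C (x o)) * v1 - C ((p - 1 - e o : ℕ) : K) * v))) :
    u.eval (x o) = 0 ∨ v.eval (x o) = 0 := by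
  by_contra hcon
  push Not at hcon
  obtain ⟨hue, hve⟩ := hcon
  have hu0 : u ≠ 0 := by rintro rfl; simp at hue
  have hv0 : v ≠ 0 := by rintro rfl; simp at hve
  have hp : p.Prime := Fact.out
  have hp2 := hp.two_le
  have hud : u.natDegree < d := (natDegree_lt_iff_degree_lt hu0).2 hu
  have hvd : v.natDegree < d' := (natDegree_lt_iff_degree_lt hv0).2 hv
  have hv1d : v1.natDegree ≤ d' - 1 := by
    rcases eq_or_ne v1 0 with rfl | h0
    · simp
    · have := (natDegree_lt_iff_degree_lt h0).2 hv1; omega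
  obtain ⟨R, hR⟩ : ∃ R, R = Fintype.card α := ⟨_, rfl⟩
  have hsum := sum_dual p e he
  rw [← hR] at hsum hdd
  obtain ⟨H, hH⟩ : ∃ H : K[X], H = HH x e o := ⟨_, rfl⟩
  obtain ⟨H', hH'⟩ : ∃ H' : K[X], H' = HH x (fun a => p - 1 - e a) o := ⟨_, rfl⟩
  obtain ⟨G, hG, hGd⟩ := exists_antideriv p _ h1
  have hGd' : G.natDegree ≤ d + ∑ a, e a := by
    have := natDegree_mul_le (p := u) (q := FF x e)
    rw [FF_natDegree] at this
    omega
  have hP : ∀ a, (X - C (x a)) ^ e a ∣ u * FF x e := fun a => (dvd_FF x e a).mul_left _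
  rw [← hH'] at h2
  obtain ⟨V, hV⟩ : ∃ V, V = (X - C (x o)) ^ (p - 1 - e o - 1) * H' *
      ((X - C (x o)) * v1 - C ((p - 1 - e o : ℕ) : K) * v) := ⟨_, rfl⟩
  rw [← hV] at h2
  have hH'd : H'.natDegree = ∑ a ∈ Finset.univ.erase o, (p - 1 - e a) := by
    rw [hH', HH_natDegree]
  have hD' : ∑ a, (p - 1 - e a) = (p - 1 - e o) + H'.natDegree := by
    rw [hH'd]
    exact (Finset.add_sum_erase Finset.univ (fun a => p - 1 - e a) (Finset.mem_univ o)).symm
  have hVd : V.natDegree ≤ (p - 1 - e o - 1) + H'.natDegree + d' := by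
    rw [hV]
    refine le_trans natDegree_mul_le ?_
    have e1 : ((X - C (x o)) ^ (p - 1 - e o - 1) * H').natDegree ≤
        (p - 1 - e o - 1) + H'.natDegree := by
      refine le_trans natDegree_mul_le ?_
      rw [(monic_X_sub_C (x o)).natDegree_pow, natDegree_X_sub_C, mul_one]
    have e2 : ((X - C (x o)) * v1 - C ((p - 1 - e o : ℕ) : K) * v).natDegree ≤ d' := by
      refine (natDegree_sub_le _ _).trans (max_le ?_ ?_)
      · refine le_trans natDegree_mul_le ?_
        rw [natDegree_X_sub_C]; omega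
      · refine le_trans (natDegree_C_mul_le _ _) (by omega)
    omega
  have hWd : (G * V).natDegree ≤ d + ∑ a, e a + ((p - 1 - e o - 1) + H'.natDegree + d') :=
    natDegree_mul_le.trans (by omega)
  have hRp := mul_pred p R (by omega)
  have hselcoef : ∀ n, R - 1 ≤ n → (sel p (G * V)).coeff n = 0 := by
    intro n hn
    rw [sel_coeff p (by omega)]
    apply coeff_eq_zero_of_natDegree_lt
    have h2 : (R - 1) * p ≤ n * p := Nat.mul_le_mul_right p hn
    have h3 : (R - 1) * p + p = R * p := by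
      obtain ⟨r, rfl⟩ : ∃ r, R = r + 1 := ⟨R - 1, by omega⟩
      simp only [Nat.add_sub_cancel]; ring
    omega
  have hloc : ∀ a, a ≠ o → (sel p (G * V)).eval ((x a) ^ p) = 0 := by
    intro a ha
    rw [sel_eval, loc p G _ V hG (x a) (e a) (he a) (hP a), taylor_coeff_pred_of_noTop p V _ h2,
      mul_zero]
    rw [hV, hH']
    apply Dvd.dvd.mul_right
    apply Dvd.dvd.mul_left
    unfold HH
    exact Finset.dvd_prod_of_mem (fun a => (X - C (x a)) ^ (p - 1 - e a))
      (Finset.mem_erase.2 ⟨ha, Finset.mem_univ a⟩)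
  have hsel0 : sel p (G * V) = 0 := by
    classical
    by_contra hQne
    apply hQne
    apply eq_zero_of_natDegree_lt_card_of_eval_eq_zero' _
      ((Finset.univ.erase o).image (fun a => (x a) ^ p))
    · intro b hb
      obtain ⟨a, ha, rfl⟩ := Finset.mem_image.1 hb
      exact hloc a (Finset.ne_of_mem_erase ha)
    · rw [Finset.card_image_of_injective _ (pow_inj p x hx), Finset.card_erase_of_mem
        (Finset.mem_univ o), Finset.card_univ, ← hR]
      rw [natDegree_lt_iff_degree_lt hQne, degree_lt_iff_coeff_zero]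
      exact hselcoef
  have hμW : (taylor (x o) (G * V)).coeff (p - 1) = 0 := by
    rw [← sel_eval, hsel0, eval_zero]
  -- local computation at the moving point
  have hτ : taylor (x o) (X - C (x o)) = X := by simp
  have hHe : H.eval (x o) ≠ 0 := by
    rw [hH]
    unfold HH
    rw [eval_prod, Finset.prod_ne_zero_iff]
    intro a ha
    rw [eval_pow, eval_sub, eval_X, eval_C]
    exact pow_ne_zero _ (sub_ne_zero.2 fun h => (Finset.ne_of_mem_erase ha) (hx h).symm)
  have hHe' : H'.eval (x o) ≠ 0 := by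
    rw [hH']
    unfold HH
    rw [eval_prod, Finset.prod_ne_zero_iff]
    intro a ha
    rw [eval_pow, eval_sub, eval_X, eval_C]
    exact pow_ne_zero _ (sub_ne_zero.2 fun h => (Finset.ne_of_mem_erase ha) (hx h).symm)
  have hτV : taylor (x o) V = X ^ (p - 1 - e o - 1) * (taylor (x o) H' *
      (X * taylor (x o) v1 - C ((p - 1 - e o : ℕ) : K) * taylor (x o) v)) := by
    have e1 : taylor (x o) ((X - C (x o)) * v1 - C ((p - 1 - e o : ℕ) : K) * v) =
        X * taylor (x o) v1 - C ((p - 1 - e o : ℕ) : K) * taylor (x o) v := by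
      rw [map_sub, taylor_mul, taylor_mul, hτ, taylor_C]
    rw [hV, taylor_mul, taylor_mul, taylor_pow, hτ, e1, mul_assoc]
  have hsum1 : (taylor (x o) (G * V)).coeff (p - 1)
      = (taylor (x o) G).coeff (e o + 1) * (taylor (x o) V).coeff (p - 1 - e o - 1) := by
    rw [taylor_mul, coeff_mul, Finset.sum_eq_single (e o + 1, p - 1 - e o - 1)]
    · rintro ⟨i, j⟩ hij hne'
      rw [Finset.HasAntidiagonal.mem_antidiagonal] at hij
      simp only at hij ⊢
      by_cases hi0 : i = 0
      · have : j = p - 1 := by omega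
        rw [this, taylor_coeff_pred_of_noTop p V _ h2, mul_zero]
      · by_cases hiN : i ≤ e o
        · rw [coeff_taylor_antideriv p G _ hG (x o) (e o) (he o) (hP o) i (by omega) hiN, zero_mul]
        · have hiN' : i ≠ e o + 1 := by
            intro h0
            apply hne'
            rw [h0]
            congr 1
            omega
          rw [hτV, coeff_X_pow_mul', if_neg (by omega), mul_zero]
    · intro hnot
      exact absurd (Finset.HasAntidiagonal.mem_antidiagonal.2 (by omega)) hnot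
  have hVc : (taylor (x o) V).coeff (p - 1 - e o - 1) =
      H'.eval (x o) * (-((p - 1 - e o : ℕ) : K) * v.eval (x o)) := by
    rw [hτV, coeff_X_pow_mul', if_pos le_rfl, Nat.sub_self, coeff_zero_eq_eval_zero]
    simp only [eval_mul, eval_sub, eval_X, eval_C, taylor_eval]
    ring_nf
  have hGc : (taylor (x o) G).coeff (e o + 1) * ((e o : K) + 1) = u.eval (x o) * H.eval (x o) := by
    have e1 : (derivative (taylor (x o) G)).coeff (e o) =
        (taylor (x o) G).coeff (e o + 1) * ((e o : K) + 1) := coeff_derivative _ _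
    rw [← e1, derivative_taylor, hG, FF_eq x e o, ← hH, taylor_mul, taylor_mul, taylor_pow, hτ]
    have e2 : taylor (x o) u * (X ^ e o * taylor (x o) H) =
        X ^ e o * (taylor (x o) u * taylor (x o) H) := by ring
    rw [e2, coeff_X_pow_mul', if_pos le_rfl, Nat.sub_self, coeff_zero_eq_eval_zero]
    simp only [eval_mul, taylor_eval, zero_add]
  have hNk : ((p - 1 - e o : ℕ) : K) ≠ 0 := natCast_ne_zero_of_lt p _ (by omega) (by omega)
  rw [hsum1, hVc] at hμW
  have h3 : (u.eval (x o) * H.eval (x o)) *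
      (H'.eval (x o) * (-((p - 1 - e o : ℕ) : K) * v.eval (x o))) = 0 := by
    rw [← hGc]
    linear_combination ((e o : K) + 1) * hμW
  exact (mul_ne_zero (mul_ne_zero hue hHe)
    (mul_ne_zero hHe' (mul_ne_zero (neg_ne_zero.2 hNk) hve))) h3

end field

section domain

variable {R : Type*} [CommRing R] [IsDomain R] (p : ℕ) [Fact p.Prime] [CharP R p]
  (D : Derivation ℤ R R) {α : Type*} [Fintype α] [DecidableEq α]

omit [IsDomain R] [Fact p.Prime] [CharP R p] in
lemma Dx_HH (x : α → R) (e : α → ℕ) (o : α) (hD : ∀ a, a ≠ o → D (x a) = 0) :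
    Dx D (HH x e o) = 0 := by
  unfold HH
  have : ∀ s : Finset α, o ∉ s → Dx D (∏ a ∈ s, (X - C (x a)) ^ e a) = 0 := by
    intro s
    induction s using Finset.induction_on with
    | empty =>
      intro _
      rw [Finset.prod_empty, ← C_1, Dx_C]; simp
    | insert a s ha ih =>
      intro ho
      rw [Finset.prod_insert ha, Dx_mul, ih (fun h => ho (Finset.mem_insert_of_mem h)), Dx_pow,
        Dx_sub, Dx_X, Dx_C, hD a (fun h => ho (h ▸ Finset.mem_insert_self a s))]
      simp
  exact this _ (Finset.notMem_erase o _)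

omit [IsDomain R] [Fact p.Prime] [CharP R p] in
lemma Dx_mul_FF (x : α → R) (e : α → ℕ) (o : α) (hD : ∀ a, a ≠ o → D (x a) = 0)
    (ho : D (x o) = 1) (he0 : 1 ≤ e o) (U : R[X]) :
    Dx D (U * FF x e) = (X - C (x o)) ^ (e o - 1) * HH x e o *
      ((X - C (x o)) * Dx D U - C ((e o : ℕ) : R) * U) := by
  rw [FF_eq x e o, Dx_mul, Dx_mul, Dx_HH D x e o hD, Dx_pow, Dx_sub, Dx_X, Dx_C, ho]
  obtain ⟨N, hN⟩ : ∃ N, e o = N + 1 := ⟨e o - 1, by omega⟩
  rw [hN]
  simp only [Nat.add_sub_cancel]
  have h2 : (C ((N + 1 : ℕ) : R) : R[X]) = ((N + 1 : ℕ) : R[X]) := by simp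
  rw [pow_succ, h2, C_1]
  ring

omit [IsDomain R] [CharP R p] in
lemma pairing_map {K : Type*} [Field K] [CharP K p] (φ : R →+* K) (hφ : Function.Injective φ)
    (x : α → R) (hx : Function.Injective x) (o : α) (e : α → ℕ)
    (hD : ∀ a, a ≠ o → D (x a) = 0) (ho : D (x o) = 1)
    (he : ∀ a, e a < p) (he1 : e o + 1 < p) (d d' : ℕ) (hdd : d + d' < Fintype.card α)
    (U V : R[X]) (hU : U.degree < d) (hV : V.degree < d')
    (h1 : NoTop p (U * FF x e)) (h2 : NoTop p (V * FF x (fun a => p - 1 - e a))) :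
    X - C (x o) ∣ U ∨ X - C (x o) ∣ V := by
  have e2 := noTop_Dx D p _ h2
  rw [Dx_mul_FF D x (fun a => p - 1 - e a) o hD ho (by show 1 ≤ p - 1 - e o; omega)] at e2
  have e1' : NoTop p (U.map φ * FF (fun a => φ (x a)) e) := by
    have := noTop_map' p _ φ h1
    rwa [Polynomial.map_mul, FF_map] at this
  have e2' : NoTop p ((X - C (φ (x o))) ^ (p - 1 - e o - 1) *
      HH (fun a => φ (x a)) (fun a => p - 1 - e a) o *
      ((X - C (φ (x o))) * (Dx D V).map φ - C ((p - 1 - e o : ℕ) : K) * V.map φ)) := by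
    have h3 := noTop_map' p _ φ e2
    have h4 : ((X - C (x o)) ^ (p - 1 - e o - 1) * HH x (fun a => p - 1 - e a) o *
        ((X - C (x o)) * Dx D V - C ((p - 1 - e o : ℕ) : R) * V)).map φ =
        (X - C (φ (x o))) ^ (p - 1 - e o - 1) *
      HH (fun a => φ (x a)) (fun a => p - 1 - e a) o *
      ((X - C (φ (x o))) * (Dx D V).map φ - C ((p - 1 - e o : ℕ) : K) * V.map φ) := by
      rw [Polynomial.map_mul, Polynomial.map_mul, Polynomial.map_pow, Polynomial.map_sub,
        Polynomial.map_sub, Polynomial.map_mul, Polynomial.map_mul, Polynomial.map_sub,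
        Polynomial.map_X, Polynomial.map_C, Polynomial.map_C, HH_map, map_natCast]
    rw [← h4]
    exact h3
  have key := pairing (K := K) p (fun a => φ (x a)) (fun a b h => hx (hφ h)) o e he he1 d d' hdd
    (U.map φ) (V.map φ) ((Dx D V).map φ) (lt_of_le_of_lt degree_map_le hU)
    (lt_of_le_of_lt degree_map_le hV)
    (lt_of_le_of_lt degree_map_le (lt_of_le_of_lt (degree_Dx_le D V) hV)) e1' e2'
  have hev : ∀ W : R[X], (W.map φ).eval (φ (x o)) = 0 → X - C (x o) ∣ W := by
    intro W hW
    rw [dvd_iff_isRoot, IsRoot.def]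
    have k1 : (W.map φ).eval (φ (x o)) = φ (W.eval (x o)) := by
      rw [eval_map, eval₂_hom]
    rw [k1] at hW
    exact hφ (hW.trans (map_zero φ).symm)
  rcases key with key | key
  · exact Or.inl (hev U key)
  · exact Or.inr (hev V key)

lemma pairing_dom (x : α → R) (hx : Function.Injective x) (o : α) (e : α → ℕ)
    (hD : ∀ a, a ≠ o → D (x a) = 0) (ho : D (x o) = 1)
    (he : ∀ a, e a < p) (he1 : e o + 1 < p) (d d' : ℕ) (hdd : d + d' < Fintype.card α)
    (U V : R[X]) (hU : U.degree < d) (hV : V.degree < d')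
    (h1 : NoTop p (U * FF x e)) (h2 : NoTop p (V * FF x (fun a => p - 1 - e a))) :
    X - C (x o) ∣ U ∨ X - C (x o) ∣ V := by
  have hφ : Function.Injective (algebraMap R (FractionRing R)) := IsFractionRing.injective R _
  have : CharP (FractionRing R) p := charP_of_injective_algebraMap hφ p
  exact pairing_map p D (algebraMap R (FractionRing R)) hφ x hx o e hD ho he he1 d d' hdd U V hU hV
    h1 h2

omit [IsDomain R] [CharP R p] in
lemma dual_map {K : Type*} [Field K] [CharP K p] (φ : R →+* K) (hφ : Function.Injective φ)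
    (x : α → R) (hx : Function.Injective x) (e : α → ℕ)
    (he : ∀ a, e a < p) (d d' : ℕ) (hdd : d + d' < Fintype.card α)
    (hdD' : ∑ a, (p - 1 - e a) ≤ (d' + 1) * (p - 1))
    (U : R[X]) (hU0 : U ≠ 0) (hU : U.degree < d)
    (h1 : NoTop p (U * FF x e)) : (hw p d' (FF x (fun a => p - 1 - e a))).det = 0 := by
  have e1 : NoTop p (U.map φ * FF (fun a => φ (x a)) e) := by
    have := noTop_map' p _ φ h1
    rwa [Polynomial.map_mul, FF_map] at this
  have h1 := dual (K := K) p (fun a => φ (x a)) (fun a b h => hx (hφ h)) e he d d' hdd hdD'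
    (U.map φ) ((Polynomial.map_ne_zero_iff hφ).2 hU0) (lt_of_le_of_lt degree_map_le hU) e1
  have h2 := det_map φ p d' (FF x (fun a => p - 1 - e a))
  rw [FF_map, h1] at h2
  exact hφ (h2.trans (map_zero φ).symm)

lemma dual_dom (x : α → R) (hx : Function.Injective x) (e : α → ℕ)
    (he : ∀ a, e a < p) (d d' : ℕ) (hdd : d + d' < Fintype.card α)
    (hdD' : ∑ a, (p - 1 - e a) ≤ (d' + 1) * (p - 1))
    (U : R[X]) (hU0 : U ≠ 0) (hU : U.degree < d)
    (h1 : NoTop p (U * FF x e)) : (hw p d' (FF x (fun a => p - 1 - e a))).det = 0 := by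
  have hφ : Function.Injective (algebraMap R (FractionRing R)) := IsFractionRing.injective R _
  have : CharP (FractionRing R) p := charP_of_injective_algebraMap hφ p
  exact dual_map p (algebraMap R (FractionRing R)) hφ x hx e he d d' hdd hdD' U hU0 hU h1

lemma L_pow_dvd (x : α → R) (o : α) (e : α → ℕ)
    (hD : ∀ a, a ≠ o → D (x a) = 0) (ho : D (x o) = 1)
    (he0 : 1 ≤ e o) (d : ℕ)
    (hall : ∀ U : R[X], U.degree < d → NoTop p (U * FF x e) → X - C (x o) ∣ U)
    (m : ℕ) (hm : m + e o ≤ p) :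
    ∀ U : R[X], U.degree < d → NoTop p (U * FF x e) → (X - C (x o)) ^ m ∣ U := by
  obtain ⟨L, hL⟩ : ∃ L : R[X], L = X - C (x o) := ⟨_, rfl⟩
  have hDL : Dx D L = -1 := by
    rw [hL, Dx_sub, Dx_X, Dx_C, ho, C_1, zero_sub]
  have hLmonic : L.Monic := by rw [hL]; exact monic_X_sub_C _
  have hL0 : L ≠ 0 := hLmonic.ne_zero
  rw [← hL] at hall ⊢
  induction m with
  | zero => intro U _ _; simp
  | succ m ih =>
    intro U hU hU'
    rcases Nat.eq_zero_or_pos m with rfl | hmpos
    · rw [zero_add, pow_one]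
      exact hall U hU hU'
    · obtain ⟨W, hW⟩ := ih (by omega) U hU hU'
      obtain ⟨m', rfl⟩ : ∃ m', m = m' + 1 := ⟨m - 1, by omega⟩
      obtain ⟨W1, hW1⟩ : ∃ W1, W1 = L ^ m' * W := ⟨_, rfl⟩
      have hUW1 : U = L * W1 := by rw [hW, hW1]; ring
      obtain ⟨V, hV⟩ : ∃ V, V = Dx D U - C ((e o : ℕ) : R) * W1 := ⟨_, rfl⟩
      have hVdeg : V.degree < d := by
        have e1 : W1.degree < d := by
          refine lt_of_le_of_lt ?_ hU
          rw [hUW1, hLmonic.degree_mul_comm, hLmonic.degree_mul]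
          have : L.degree = 1 := by rw [hL]; exact degree_X_sub_C _
          rw [this]
          exact le_add_of_nonneg_right (by norm_num)
        rw [hV]
        refine lt_of_le_of_lt (degree_sub_le _ _) (max_lt ?_ ?_)
        · exact lt_of_le_of_lt (degree_Dx_le D U) hU
        · exact lt_of_le_of_lt ((degree_mul_le _ _).trans (add_le_of_nonpos_left degree_C_le)) e1
      have hVtop : NoTop p (V * FF x e) := by
        have e1 := noTop_Dx D p _ hU'
        rw [Dx_mul_FF D x e o hD ho he0, ← hL] at e1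
        have e2 : L ^ (e o - 1) * HH x e o * (L * Dx D U - C ((e o : ℕ) : R) * U) =
            V * FF x e := by
          rw [FF_eq x e o, ← hL, hV]
          obtain ⟨N, hN⟩ : ∃ N, e o = N + 1 := ⟨e o - 1, by omega⟩
          rw [hN, Nat.add_sub_cancel, pow_succ]
          nth_rewrite 2 [hUW1]
          ring
        rwa [e2] at e1
      have hdvd := ih (by omega) V hVdeg hVtop
      have hVeq : V = L ^ m' * (L * Dx D W - C ((m' + 1 + e o : ℕ) : R) * W) := by
        rw [hV, hW1, hW, Dx_mul, Dx_pow, hDL]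
        simp only [Nat.add_sub_cancel]
        have e4 : (C ((m' + 1 + e o : ℕ) : R) : R[X]) = ((m' + 1 + e o : ℕ) : R[X]) := by simp
        have e5 : (C ((e o : ℕ) : R) : R[X]) = ((e o : ℕ) : R[X]) := by simp
        rw [e4, e5]
        push_cast
        ring
      rw [hVeq, pow_succ, mul_dvd_mul_iff_left (pow_ne_zero _ hL0)] at hdvd
      have hdvd2 : L ∣ C ((m' + 1 + e o : ℕ) : R) * W :=
        (dvd_sub_right (dvd_mul_right L (Dx D W))).1 hdvd
      have hunit : IsUnit (C ((m' + 1 + e o : ℕ) : R) : R[X]) :=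
        isUnit_C.2 (natCast_isUnit p _ (by omega) (by omega))
      have hdvd3 : L ∣ W := by
        rwa [hunit.dvd_mul_left] at hdvd2
      rw [hW, pow_succ]
      exact mul_dvd_mul_left _ hdvd3

/-- a singular matrix has a kernel -/
lemma exists_ker {R : Type*} [CommRing R] [IsDomain R] (p d : ℕ) (hp : 2 ≤ p) (F : R[X])
    (hF : F.natDegree ≤ (d + 1) * (p - 1)) (h : (hw p d F).det = 0) :
    ∃ U : R[X], U ≠ 0 ∧ U.degree < d ∧ NoTop p (U * F) := by
  obtain ⟨a, ha, hMa⟩ := Matrix.exists_mulVec_eq_zero_iff.2 h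
  have hd : 1 ≤ d := by
    rcases Nat.eq_zero_or_pos d with rfl | h1
    · exact absurd (Subsingleton.elim _ _) ha
    · exact h1
  have hcoef : ∀ n : ℕ, d ≤ n → (∑ j : Fin d, C (a j) * X ^ (j : ℕ) : R[X]).coeff n = 0 := by
    intro n hn
    rw [finsetSum_coeff]
    apply Finset.sum_eq_zero
    intro j _
    rw [coeff_C_mul_X_pow, if_neg]
    have := j.2
    omega
  refine ⟨∑ j : Fin d, C (a j) * X ^ (j : ℕ), ?_, ?_, ?_⟩
  · intro h0
    apply ha
    funext j
    have h1 : (∑ i : Fin d, C (a i) * X ^ (i : ℕ) : R[X]).coeff (j : ℕ) = a j := by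
      rw [finsetSum_coeff, Finset.sum_eq_single j]
      · rw [coeff_C_mul_X_pow, if_pos rfl]
      · intro i _ hij
        rw [coeff_C_mul_X_pow, if_neg]
        intro h; exact hij (Fin.ext h).symm
      · intro h; exact absurd (Finset.mem_univ j) h
    rw [← h1, h0, coeff_zero, Pi.zero_apply]
  · rw [degree_lt_iff_coeff_zero]
    exact fun m hm => hcoef m hm
  · intro i
    by_cases hi : i < d
    · have := congrFun hMa ⟨i, hi⟩
      rw [hw_mulVec p d (by omega)] at this
      simpa using this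
    · apply coeff_eq_zero_of_natDegree_lt
      have h1 : (∑ j : Fin d, C (a j) * X ^ (j : ℕ) : R[X]).natDegree ≤ d - 1 := by
        rw [natDegree_le_iff_coeff_eq_zero]
        intro n hn
        exact hcoef n (by omega)
      have h3 := (natDegree_mul_le (p := (∑ j : Fin d, C (a j) * X ^ (j : ℕ) : R[X])) (q := F))
      have h4 : d * p ≤ i * p := Nat.mul_le_mul_right p (by omega)
      have h5 := mul_pred p (d + 1) (by omega)
      have h6 : (d + 1) * p = d * p + p := by ring
      omega

/-- The matrix of a family in which one point moves is not singular. -/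
theorem generic_det (x : α → R) (hx : Function.Injective x) (o : α) (e : α → ℕ)
    (hD : ∀ a, a ≠ o → D (x a) = 0) (ho : D (x o) = 1)
    (he : ∀ a, e a < p) (he0 : 1 ≤ e o) (he1 : e o + 1 < p) (d d' : ℕ)
    (hdd : d + d' < Fintype.card α) (hdD : ∑ a, e a ≤ (d + 1) * (p - 1))
    (hdD' : ∑ a, (p - 1 - e a) ≤ (d' + 1) * (p - 1))
    (hd : d + e o ≤ p) (hd' : d' ≤ e o + 1) : (hw p d (FF x e)).det ≠ 0 := by
  intro h0
  have hp2 := (Fact.out : p.Prime).two_le
  obtain ⟨U, hU0, hUd, hUt⟩ := exists_ker p d hp2 (FF x e) (by rw [FF_natDegree]; exact hdD) h0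
  -- duality
  have h0' : (hw p d' (FF x (fun a => p - 1 - e a))).det = 0 :=
    dual_dom p x hx e he d d' hdd hdD' U hU0 hUd hUt
  obtain ⟨V, hV0, hVd, hVt⟩ := exists_ker p d' hp2 (FF x (fun a => p - 1 - e a))
    (by rw [FF_natDegree]; exact hdD') h0'
  have hdeg : ∀ (m : ℕ) (W : R[X]) (c : ℕ), W ≠ 0 → W.degree < (c : WithBot ℕ) →
      (X - C (x o)) ^ m ∣ W → m < c := by
    intro m W c hW0 hWd hdvd
    obtain ⟨Z, hZ⟩ := hdvd
    have hZ0 : Z ≠ 0 := by rintro rfl; apply hW0; rw [hZ, mul_zero]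
    have h1 := (natDegree_lt_iff_degree_lt hW0).2 hWd
    rw [hZ, ((monic_X_sub_C (x o)).pow m).natDegree_mul' hZ0,
      (monic_X_sub_C (x o)).natDegree_pow, natDegree_X_sub_C, mul_one] at h1
    omega
  by_cases hall : ∀ U : R[X], U.degree < d → NoTop p (U * FF x e) → X - C (x o) ∣ U
  · have h1 := L_pow_dvd p D x o e hD ho he0 d hall (p - e o) (by omega) U hUd hUt
    have h2 := hdeg _ U d hU0 hUd h1
    omega
  · push Not at hall
    obtain ⟨U0, hU0d, hU0t, hU0n⟩ := hall
    have hall' : ∀ V : R[X], V.degree < d' → NoTop p (V * FF x (fun a => p - 1 - e a)) →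
        X - C (x o) ∣ V := by
      intro V hVd hVt
      rcases pairing_dom p D x hx o e hD ho he he1 d d' hdd U0 V hU0d hVd hU0t hVt with h | h
      · exact absurd h hU0n
      · exact h
    have h1 := L_pow_dvd p D x o (fun a => p - 1 - e a) hD ho (by omega) d' hall' (e o + 1)
      (by omega) V hVd hVt
    have h2 := hdeg _ V d' hV0 hVd h1
    omega

end domain

end Pool.Agent.R992.AC
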